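import Pool.Agent.Run7.h447.SphIso

namespace Pool.Agent.Results.MP_94a3a7_co.GUnique

open Run7.h447.Sph

/-- Q2 of the problem, for every `i ≥ 1` and every `d ≥ 1` (written `d = q * i + r` with
`1 ≤ r ≤ i`): a `ℤ/2`-homology `(d-1)`-sphere all of whose missing faces have dimension at most
`i` and whose `g`-numbers are those of `K(i,d-1)` is isomorphic to `K(i,d-1)`. -/
theorem result (i d q r : ℕ) (hr : 1 ≤ r) (hri : r ≤ i) (hd : d = q * i + r)
    (V : Type) [Fintype V] [DecidableEq V] (Δ : Finset (Finset V)) (hS : IsSphere Δ d)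
    (hm : ∀ τ, IsMissingFace Δ τ → τ.card ≤ i + 1)
    (hg : ∀ j ≤ d / 2, gnum Δ d j = gnum (KK q i r) d j) :
    IsIsoTo Δ (KK q i r) :=
  g_unique i d q r hr hri hd Δ hS hm hg

end Pool.Agent.Results.MP_94a3a7_co.GUnique
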